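import Mathlib
import Pool.Agent.Lib.MP_2602dd_lc.Cinf

set_option autoImplicit false

open Topology Set Filter MeasureTheory
open scoped Manifold ContDiff
open Pool.Agent.Lib.MP_2602dd_lc

namespace Pool.Agent.Results.MP_2602dd_lc.TorusSkewProducts

/-- The smooth structure of the two-torus `TT = Fin 2 → ℝ/ℤ` (charts: local inverses of the
covering map `ℝ² → TT`). -/
noncomputable local instance : ChartedSpace E2 TT := csTT

/-- `C^∞` maps of the two-torus. -/
def Smooth (T : TT → TT) : Prop := ContMDiff (𝓡 2) (𝓡 2) ∞ T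

/-- `SE(T²)`: the `C^∞` diffeomorphisms of the two-torus which preserve the Haar measure `nu`
and are ergodic. -/
def SE : Type :=
  {T : TT ≃ TT // Smooth T ∧ Smooth T.symm ∧ MeasurePreserving T nu nu ∧ Ergodic T nu}

/-- The underlying map. -/
def SE.map (T : SE) : TT → TT := T.1

/-- The covering map `ℝ² → TT`. -/
noncomputable def cov (y : E2) : TT := fun i => ((y i : ℝ) : UnitAddCircle)

/-- `T` is `ε`-close to `S` in the `C^k` sense: `T = S + δ` on the plane, with a smooth
displacement `δ` whose derivatives up to order `k` are everywhere smaller than `ε`. -/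
def Close (k : ℕ) (ε : ℝ) (S T : TT → TT) : Prop :=
  ∃ δ : Fin 2 → E2 → ℝ, (∀ i, ContDiff ℝ ∞ (δ i)) ∧
    (∀ y i, T (cov y) i = S (cov y) i + ((δ i y : ℝ) : UnitAddCircle)) ∧
    ∀ i, ∀ j ≤ k, ∀ y, ‖iteratedFDeriv ℝ j (δ i) y‖ < ε

/-- The `C^∞` topology of `SE(T²)`: a set is open iff with each `S` it contains all `T` which are
`ε`-close to `S` in the `C^k` sense, for some `k` and some `ε > 0`. -/
@[reducible] def cInf : TopologicalSpace SE where
  IsOpen U := ∀ S ∈ U, ∃ k : ℕ, ∃ ε > 0, ∀ T : SE, Close k ε S.map T.map → T ∈ U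
  isOpen_univ := fun _ _ => ⟨0, 1, one_pos, fun _ _ => mem_univ _⟩
  isOpen_inter := by
    rintro U V hU hV S ⟨hSU, hSV⟩
    obtain ⟨k, ε, hε, h⟩ := hU S hSU
    obtain ⟨l, η, hη, h'⟩ := hV S hSV
    refine ⟨max k l, min ε η, lt_min hε hη, ?_⟩
    rintro T ⟨δ, h1, h2, h3⟩
    exact ⟨h T ⟨δ, h1, h2, fun i j hj y => (h3 i j (hj.trans (le_max_left _ _)) y).trans_le
        (min_le_left _ _)⟩,
      h' T ⟨δ, h1, h2, fun i j hj y => (h3 i j (hj.trans (le_max_right _ _)) y).trans_le
        (min_le_right _ _)⟩⟩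
  isOpen_sUnion := by
    rintro 𝒰 h𝒰 S ⟨U, hU, hSU⟩
    obtain ⟨k, ε, hε, h⟩ := h𝒰 U hU S hSU
    exact ⟨k, ε, hε, fun T hT => ⟨U, hU, h T hT⟩⟩

/-- Conjugacy of members of `SE(T²)` by a measure preserving homeomorphism. -/
def HomeoConj (S T : SE) : Prop :=
  ∃ φ : TT ≃ₜ TT, MeasurePreserving φ nu nu ∧ ∀ p, φ (S.map p) = T.map (φ p)

/-- Measure isomorphism of members of `SE(T²)` (almost everywhere). -/
def MeasIso (S T : SE) : Prop :=
  ∃ φ ψ : TT → TT, MeasurePreserving φ nu nu ∧ MeasurePreserving ψ nu nu ∧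
    ψ ∘ φ =ᵐ[nu] id ∧ φ ∘ ψ =ᵐ[nu] id ∧ φ ∘ S.map =ᵐ[nu] T.map ∘ φ

/-- Isomorphism of binary relations on `ℕ`, the complete orbit equivalence relation of `S_∞`. -/
def IsoRel (a b : ℕ → ℕ → Bool) : Prop :=
  ∃ σ : Equiv.Perm ℕ, ∀ i j : ℕ, a i j = b (σ i) (σ j)

/-- The rotation number `∑ 2^(-j!)`, mod 1. -/
noncomputable def rot : UnitAddCircle := ((liouvilleNumber 2 : ℝ) : UnitAddCircle)

/-- `T` is a smooth skew product `(s, t) ↦ (s + rot, t + h(s))` with a real-valued `h`. -/
def IsSkew (T : SE) : Prop :=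
  ∃ h : UnitAddCircle → ℝ, ContDiff ℝ ∞ (fun r : ℝ => h (r : UnitAddCircle)) ∧
    ∀ p : TT, T.map p = ![p 0 + rot, p 1 + ((h (p 0) : ℝ) : UnitAddCircle)]

/-- The member of the family with parameter `x`. -/
noncomputable def fam (x : ℕ → ℝ) : SE :=
  ⟨(TAdiffeo exists_ldata (abs_amp_le x)).toEquiv,
    (TAdiffeo exists_ldata (abs_amp_le x)).contMDiff_toFun,
    (TAdiffeo exists_ldata (abs_amp_le x)).contMDiff_invFun,
    measurePreserving_TA exists_ldata (abs_amp_le x),
    ergodic_TA exists_ldata (abs_amp_le x) (amp_odd x)⟩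

theorem fam_map (x : ℕ → ℝ) : (fam x).map = TA rot qq (amp x) := rfl

theorem fam_skew (x : ℕ → ℝ) : IsSkew (fam x) := by
  refine ⟨P qq (cf rot qq (amp x) 1),
    contDiff_P qq (summable_cf_pow exists_ldata (abs_amp_le x)), fun p => ?_⟩
  rw [fam_map, TA_def]
  ext i
  fin_cases i
  · simp
  · simp

theorem fam_continuous : @Continuous (ℕ → ℝ) SE _ cInf fam := by
  let _ := cInf
  rw [continuous_def]
  intro U hU
  rw [isOpen_iff_eventually]
  intro x hx
  obtain ⟨k, ε, hε, h⟩ := hU (fam x) hx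
  filter_upwards [eventually_close exists_ldata x k hε] with z hz
  apply h
  have hs : ∀ (z : ℕ → ℝ) (m : ℕ), Summable fun i =>
      ‖cf rot qq (amp z) 1 i‖ * (qq i : ℝ) ^ m := fun z m =>
    summable_cf_pow exists_ldata (abs_amp_le z) m
  have hs0 : ∀ (z : ℕ → ℝ), Summable fun i => ‖cf rot qq (amp z) 1 i‖ := fun z =>
    summable_cf exists_ldata (abs_amp_le z) 1
  have hdif : ∀ s : UnitAddCircle,
      P qq (fun i => cf rot qq (amp z) 1 i - cf rot qq (amp x) 1 i) s =
        P qq (cf rot qq (amp z) 1) s - P qq (cf rot qq (amp x) 1) s := fun s =>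
    P_sub qq (hs0 z) (hs0 x) s
  refine ⟨![fun _ => 0, fun y => P qq (fun i => cf rot qq (amp z) 1 i - cf rot qq (amp x) 1 i)
    ((y 0 : ℝ) : UnitAddCircle)], ?_, ?_, ?_⟩
  · intro i
    fin_cases i
    · exact contDiff_const
    · show ContDiff ℝ ∞ (fun y : E2 =>
        P qq (fun i => cf rot qq (amp z) 1 i - cf rot qq (amp x) 1 i) ((y 0 : ℝ) : UnitAddCircle))
      simp only [hdif]
      have e0 : ContDiff ℝ ∞ (fun y : E2 => y 0) :=
        (EuclideanSpace.proj (𝕜 := ℝ) (0 : Fin 2)).contDiff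
      exact ((contDiff_P qq (hs z)).comp e0).sub ((contDiff_P qq (hs x)).comp e0)
  · intro y i
    rw [fam_map, fam_map, TA_def, TA_def]
    fin_cases i
    · simp
    · simp only [Fin.mk_one, sk_one, cov, Matrix.cons_val_one, Matrix.cons_val_fin_one]
      rw [hdif, AddCircle.coe_sub]
      abel
  · intro i j hj y
    fin_cases i
    · have : iteratedFDeriv ℝ j (fun _ : E2 => (0 : ℝ)) y = 0 := by
        simp
      show ‖iteratedFDeriv ℝ j (fun _ : E2 => (0 : ℝ)) y‖ < ε
      rw [this, norm_zero]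
      exact hε
    · exact hz j hj y

/-- **The measure isomorphism relation on `SE(T²)` is not Borel reducible to isomorphism of
countable structures, not even on the smooth skew products over one rotation.** Let `f` assign
countable structures to the smooth ergodic transformations of the torus, Borel for the `C^∞`
topology, so that skew products which are conjugate by a measure preserving homeomorphism get
isomorphic structures. Then two skew products which are not even measure isomorphic get isomorphic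
structures. -/
theorem result :
    ∀ f : SE → ℕ → ℕ → Bool,
      @Measurable SE (ℕ → ℕ → Bool) (@borel SE cInf) inferInstance f →
      (∀ S T : SE, IsSkew S → IsSkew T → HomeoConj S T → IsoRel (f S) (f T)) →
      ∃ S T : SE, IsSkew S ∧ IsSkew T ∧ IsoRel (f S) (f T) ∧ ¬ MeasIso S T := by
  intro f hf hom
  have hm : @Measurable (ℕ → ℝ) SE _ (@borel SE cInf) fam := by
    let _ : TopologicalSpace SE := cInf
    let _ : MeasurableSpace SE := borel SE
    have : BorelSpace SE := ⟨rfl⟩
    exact Continuous.measurable fam_continuous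
  have hF : Measurable (fun x : ℕ → ℝ => f (fam x)) :=
    @Measurable.comp _ _ _ _ (@borel SE cInf) _ _ _ hf hm
  obtain ⟨x, z, ⟨σ, _, hσ⟩, hn⟩ := no_complete_invariant exists_ldata (fun x => f (fam x)) hF
    (fun x g => by
      obtain ⟨φ, hφ, hc⟩ := homeo_of_summable exists_ldata (abs_amp_le x) (abs_amp_le _)
        (summable_amp x g)
      obtain ⟨σ, hσ⟩ := hom (fam x) (fam (x + iota g)) (fam_skew _) (fam_skew _) ⟨φ, hφ, hc⟩
      exact ⟨σ, fun i hi => absurd hi (Nat.not_lt_zero i), hσ⟩)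
  exact ⟨fam x, fam z, fam_skew x, fam_skew z, ⟨σ, hσ⟩, hn⟩

/-- Consequence: no equivalence relation between conjugacy by measure preserving homeomorphisms and
measure isomorphism is Borel reducible to isomorphism of countable structures on these skew
products; in particular measure isomorphism itself is not. -/
theorem not_borel_reducible (E : SE → SE → Prop) (h1 : ∀ S T, HomeoConj S T → E S T)
    (h2 : ∀ S T, E S T → MeasIso S T) :
    ¬ ∃ f : SE → ℕ → ℕ → Bool,
      @Measurable SE (ℕ → ℕ → Bool) (@borel SE cInf) inferInstance f ∧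
      ∀ S T : SE, IsSkew S → IsSkew T → (E S T ↔ IsoRel (f S) (f T)) := by
  rintro ⟨f, hf, h⟩
  obtain ⟨S, T, hS, hT, hi, hn⟩ :=
    result f hf fun S T hS hT hc => (h S T hS hT).1 (h1 S T hc)
  exact hn (h2 S T ((h S T hS hT).2 hi))

end Pool.Agent.Results.MP_2602dd_lc.TorusSkewProducts
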